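import Mathlib

namespace Pool.Agent.Results.MP_739307_an.Q1

open Filter Topology ZeroAtInfty

/-- The net `e` is an approximate identity. -/
def IsAI {A J : Type} [NonUnitalNormedRing A] [Preorder J] (e : J → A) : Prop :=
  ∀ x, Tendsto (fun j => ‖e j * x - x‖) atTop (𝓝 0) ∧ Tendsto (fun j => ‖x * e j - x‖) atTop (𝓝 0)

/-- The condition `C(a, l, E)`. -/
def Cond {A J : Type} [NonUnitalNormedRing A] [NormedSpace ℂ A] [Preorder J] (a : A) (l : ℂ)
    (e : J → A) : Prop :=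
  ∃ r : J → A, IsAI fun j => (l • e j - a) * r j

/-- `C` depends on the approximate identity, already for bounded sequences. -/
def Depends (A : Type) [NonUnitalNormedRing A] [NormedSpace ℂ A] : Prop :=
  ∃ (a : A) (l : ℂ) (E F : ℕ → A), IsAI E ∧ IsAI F ∧ (∀ n, ‖E n‖ ≤ 2 ∧ ‖F n‖ ≤ 2) ∧
    Cond a l E ∧ ¬ Cond a l F

noncomputable def cut (n : ℕ) (f : ℕ → ℂ) : C₀(ℕ, ℂ) where
  toFun k := if k ≤ n then f k else 0
  continuous_toFun := continuous_of_discreteTopology
  zero_at_infty' := by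
    rw [cocompact_eq_cofinite, Nat.cofinite_eq_atTop]
    exact tendsto_const_nhds.congr' ((eventually_gt_atTop n).mono fun k h => by simp [h.not_ge])

lemma cut_apply (n f k) : cut n f k = if k ≤ n then f k else 0 := rfl

lemma nle (x : C₀(ℕ, ℂ)) {c : ℝ} (h0 : 0 ≤ c) (h : ∀ k, ‖x k‖ ≤ c) : ‖x‖ ≤ c := by
  rw [← ZeroAtInftyContinuousMap.norm_toBCF_eq_norm]
  exact (BoundedContinuousFunction.norm_le h0).2 h

lemma ale (x : C₀(ℕ, ℂ)) (k) : ‖x k‖ ≤ ‖x‖ := by
  rw [← ZeroAtInftyContinuousMap.norm_toBCF_eq_norm]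
  exact x.toBCF.norm_coe_le_norm k

lemma ai1 : IsAI fun n => cut n 1 := by
  intro x
  have : Tendsto (fun n => ‖cut n 1 * x - x‖) atTop (𝓝 0) := by
    have h := x.zero_at_infty'
    rw [cocompact_eq_cofinite, Nat.cofinite_eq_atTop, Metric.tendsto_atTop] at h
    rw [Metric.tendsto_atTop]
    intro ε e
    obtain ⟨N, hN⟩ := h (ε / 2) (by positivity)
    refine ⟨N, fun n hn => ?_⟩
    rw [dist_zero_right, norm_norm]
    refine (nle _ (c := ε / 2) (by positivity) fun k => ?_).trans_lt (by linarith)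
    by_cases hk : k ≤ n
    · simp [cut_apply, hk]; positivity
    · simpa [cut_apply, hk] using (hN k (by omega)).le
  exact ⟨this, by simpa [mul_comm] using this⟩

lemma lim : Tendsto (fun n : ℕ => (1 / (n + 1) : ℂ)) atTop (𝓝 0) := by
  have := (Complex.continuous_ofReal.tendsto 0).comp tendsto_one_div_add_atTop_nhds_zero_nat
  simpa [Function.comp_def] using this

lemma nb (n : ℕ) : ‖(1 + 1 / (n + 1) : ℂ)‖ ≤ 2 := by
  refine (norm_add_le _ _).trans ?_
  have : ‖(n + 1 : ℂ)‖ = n + 1 := by exact_mod_cast Complex.norm_natCast (n + 1)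
  have h : (1 : ℝ) / (n + 1) ≤ 1 := by rw [div_le_one (by positivity)]; linarith [n.cast_nonneg (α := ℝ)]
  rw [norm_div, this, norm_one]; linarith

lemma sc {A : Type} [NonUnitalNormedRing A] [NormedSpace ℂ A] [IsScalarTower ℂ A A]
    [SMulCommClass ℂ A A] {e : ℕ → A} (h : IsAI e) :
    IsAI fun n : ℕ => (1 + 1 / (n + 1) : ℂ) • e n := by
  intro x
  have t : Tendsto (fun n : ℕ => (1 + 1 / (n + 1) : ℂ)) atTop (𝓝 1) := by simpa using lim.const_add 1
  obtain ⟨p, q⟩ := h x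
  rw [← tendsto_iff_norm_sub_tendsto_zero] at *
  exact ⟨by simpa [smul_mul_assoc] using t.smul p, by
    rw [← tendsto_iff_norm_sub_tendsto_zero]; simpa [mul_smul_comm] using t.smul q⟩

theorem result : Depends ℂ ∧ Depends C₀(ℕ, ℂ) := by
  have z (n : ℕ) : (n + 1 : ℂ) ≠ 0 := by exact_mod_cast n.succ_ne_zero
  have z2 (n : ℕ) : (n + 1 + 1 : ℂ) ≠ 0 := by exact_mod_cast (n + 1).succ_ne_zero
  constructor
  · have o : IsAI fun _ : ℕ => (1 : ℂ) := fun x => by simp
    refine ⟨1, 1, _, _, sc o, o, fun n => ⟨by simpa using nb n, by simp⟩, ⟨fun n => n + 1, ?_⟩, ?_⟩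
    · convert o using 2 with n
      simp [z n]
    · rintro ⟨r, h⟩
      simpa using (h 1).1
  · have c (n) : ‖cut n 1‖ ≤ 1 := nle _ zero_le_one fun k => by rw [cut_apply]; split_ifs <;> simp
    refine ⟨cut 0 1, 1, _, _, sc ai1, ai1, fun n => ⟨?_, by linarith [c n]⟩,
      ⟨fun n => cut n fun k => if k = 0 then n + 1 else (n + 1) / (n + 1 + 1), ?_⟩, ?_⟩
    · rw [norm_smul]; nlinarith [nb n, c n, norm_nonneg (cut n 1)]
    · convert ai1 using 2 with n
      ext k
      by_cases h0 : k = 0 <;> by_cases hk : k ≤ n <;> simp [cut_apply, h0, hk, z n]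
      field_simp [z n, z2 n]
    · rintro ⟨r, h⟩
      have := ge_of_tendsto' (h (cut 0 1)).1 (b := 1) fun n =>
        le_trans (by simp [cut_apply]) (ale _ 0)
      linarith

end Pool.Agent.Results.MP_739307_an.Q1
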